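import Pool.Agent.Helper73_ED.Statements

/-! Module C1 (elimination of the scalars) of `MP_625b79_ag`. -/

open scoped Polynomial

set_option autoImplicit false

namespace Helper14_ED

open Helper73_ED

theorem mom_rev (d k : ℕ) (s : ℂ) (j : Fin (d + 1)) :
    mom d k s (Fin.rev j) = ((j : ℕ).choose k : ℂ) * s ^ ((j : ℕ) - k) := by
  have h : d - ((Fin.rev j : Fin (d + 1)) : ℕ) = (j : ℕ) := by
    have := j.2
    rw [Fin.val_rev]
    omega
  simp only [mom, h]

/-- `U(s)` -/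
noncomputable def Ue (d : ℕ) (U : Fin (d + 1) → ℂ) (s : ℂ) : ℂ :=
  ∑ j : Fin (d + 1), U j * s ^ (j : ℕ)

/-- `U'(s)` -/
noncomputable def Ud (d : ℕ) (U : Fin (d + 1) → ℂ) (s : ℂ) : ℂ :=
  ∑ j : Fin (d + 1), U j * ((j : ℕ) * s ^ ((j : ℕ) - 1))

theorem BY_u_zero (d : ℕ) (u : Fin (d + 1) → ℂ) (s : ℂ) :
    BY d u (mom d 0 s) = Ue d (toU d u) s := by
  unfold BY Ue toU
  refine Finset.sum_congr rfl (fun j _ => ?_)
  rw [mom_rev]
  simp

theorem BY_u_one (d : ℕ) (u : Fin (d + 1) → ℂ) (s : ℂ) :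
    BY d u (mom d 1 s) = Ud d (toU d u) s := by
  unfold BY Ud toU
  refine Finset.sum_congr rfl (fun j _ => ?_)
  rw [mom_rev]
  simp

theorem BY_mom_zero (d : ℕ) (s t : ℂ) : BY d (mom d 0 t) (mom d 0 s) = (s + t) ^ d := by
  rw [BY_u_zero, add_pow, ← Fin.sum_univ_eq_sum_range
    (fun j => s ^ j * t ^ (d - j) * (d.choose j : ℂ)) (d + 1)]
  unfold Ue toU mom
  refine Finset.sum_congr rfl (fun j _ => ?_)
  simp
  ring

theorem BY_mom_one (d : ℕ) (s t : ℂ) :
    BY d (mom d 0 t) (mom d 1 s) = d * (s + t) ^ (d - 1) := by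
  rw [BY_u_one]
  rcases d with _ | m
  · simp [Ud]
  · unfold Ud toU mom
    rw [Fin.sum_univ_succ, Nat.add_sub_cancel, add_pow, ← Fin.sum_univ_eq_sum_range
      (fun j => s ^ j * t ^ (m - j) * (m.choose j : ℂ)) (m + 1), Finset.mul_sum]
    simp only [Fin.val_zero, Nat.cast_zero, zero_mul, mul_zero, zero_add]
    refine Finset.sum_congr rfl (fun j _ => ?_)
    have h1 : ((m + 1).choose ((j : ℕ) + 1) : ℂ) * ((j : ℕ) + 1 : ℂ) =
        ((m : ℂ) + 1) * (m.choose (j : ℕ) : ℂ) := by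
      have := Nat.add_one_mul_choose_eq m (j : ℕ)
      have h2 : (((m + 1) * m.choose (j : ℕ) : ℕ) : ℂ) =
        (((m + 1).choose ((j : ℕ) + 1) * ((j : ℕ) + 1) : ℕ) : ℂ) := by rw [this]
      push_cast at h2
      exact h2.symm
    have h3 : m + 1 - ((j : ℕ) + 1) = m - (j : ℕ) := by omega
    simp only [Fin.val_succ, h3, Nat.choose_zero_right, Nat.cast_one, one_mul,
      Nat.sub_zero, Nat.add_sub_cancel]
    push_cast
    linear_combination (s ^ (j : ℕ) * t ^ (m - (j : ℕ))) * h1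

theorem BY_comb (d : ℕ) (x y u v : Fin (d + 1) → ℂ) (α β : ℂ) :
    BY d (α • x + β • y - u) v = α * BY d x v + β * BY d y v - BY d u v := by
  unfold BY
  rw [Finset.mul_sum, Finset.mul_sum, ← Finset.sum_add_distrib, ← Finset.sum_sub_distrib]
  refine Finset.sum_congr rfl (fun j _ => ?_)
  simp only [Pi.sub_apply, Pi.add_apply, Pi.smul_apply, smul_eq_mul]
  ring

theorem cond_iff_eqs {d : ℕ} (u : Fin (d + 1) → ℂ) (s t α β : ℂ) :
    Cond d u s t α β ↔
      (α * (2 * s) ^ d + β * (s + t) ^ d = Ue d (toU d u) s ∧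
      α * (d * (2 * s) ^ (d - 1)) + β * (d * (s + t) ^ (d - 1)) = Ud d (toU d u) s ∧
      α * (s + t) ^ d + β * (2 * t) ^ d = Ue d (toU d u) t ∧
      α * (d * (s + t) ^ (d - 1)) + β * (d * (2 * t) ^ (d - 1)) = Ud d (toU d u) t) := by
  unfold Cond
  rw [BY_comb, BY_comb, BY_comb, BY_comb, BY_mom_zero, BY_mom_zero, BY_mom_zero, BY_mom_zero,
    BY_mom_one, BY_mom_one, BY_mom_one, BY_mom_one, BY_u_zero, BY_u_one, BY_u_zero, BY_u_one,
    sub_eq_zero, sub_eq_zero, sub_eq_zero, sub_eq_zero, ← two_mul, ← two_mul, add_comm t s]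

theorem Ue_mul (d : ℕ) (U : Fin (d + 1) → ℂ) (s : ℂ) :
    s * Ud d U s = ∑ j : Fin (d + 1), U j * ((j : ℕ) * s ^ (j : ℕ)) := by
  unfold Ud
  rw [Finset.mul_sum]
  refine Finset.sum_congr rfl (fun j _ => ?_)
  rcases h : (j : ℕ) with _ | m
  · simp
  · rw [Nat.add_sub_cancel, pow_succ]; ring

theorem F1_eq (d : ℕ) (hd : 1 ≤ d) (U : Fin (d + 1) → ℂ) (r s : ℂ) :
    s ^ (d - 1) * F1 d U r s =
      (s + r * s) ^ (d - 1) * (d * Ue d U s - (s + r * s) * Ud d U s) -
      (2 * s) ^ (d - 1) * (d * Ue d U (r * s) - 2 * (r * s) * Ud d U (r * s)) := by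
  have h1 : (s + r * s) * Ud d U s = (1 + r) * (s * Ud d U s) := by ring
  have h2 : 2 * (r * s) * Ud d U (r * s) = 2 * ((r * s) * Ud d U (r * s)) := by ring
  have h3 : s + r * s = s * (1 + r) := by ring
  rw [h1, h2, Ue_mul, Ue_mul, h3, mul_pow, mul_pow]
  unfold F1 Ue
  simp only [Finset.mul_sum]
  rw [← Finset.sum_sub_distrib, ← Finset.sum_sub_distrib]
  simp only [Finset.mul_sum]
  rw [← Finset.sum_sub_distrib]
  refine Finset.sum_congr rfl (fun j _ => ?_)
  simp only [aP, Polynomial.eval_sub, Polynomial.eval_mul, Polynomial.eval_pow,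
    Polynomial.eval_add, Polynomial.eval_one, Polynomial.eval_X, Polynomial.eval_C, mul_pow]
  ring

theorem F2_eq (d : ℕ) (hd : 1 ≤ d) (U : Fin (d + 1) → ℂ) (r s : ℂ) :
    s ^ (d - 1) * F2 d U r s =
      r * ((s + r * s) ^ (d - 1) * (d * Ue d U (r * s) - (s + r * s) * Ud d U (r * s)) -
      (2 * (r * s)) ^ (d - 1) * (d * Ue d U s - 2 * s * Ud d U s)) := by
  obtain ⟨m, rfl⟩ : ∃ m, d = m + 1 := ⟨d - 1, by omega⟩
  have h1 : r * ((s + r * s) ^ (m + 1 - 1) * (((m + 1 : ℕ) : ℂ) * Ue (m + 1) U (r * s) -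
      (s + r * s) * Ud (m + 1) U (r * s)) -
      (2 * (r * s)) ^ (m + 1 - 1) * (((m + 1 : ℕ) : ℂ) * Ue (m + 1) U s -
        2 * s * Ud (m + 1) U s)) =
      (s + r * s) ^ (m + 1 - 1) * (((m + 1 : ℕ) : ℂ) * r * Ue (m + 1) U (r * s) -
      (1 + r) * ((r * s) * Ud (m + 1) U (r * s))) -
      r * (2 * (r * s)) ^ (m + 1 - 1) * (((m + 1 : ℕ) : ℂ) * Ue (m + 1) U s -
        2 * (s * Ud (m + 1) U s)) := by ring
  have h3 : s + r * s = s * (1 + r) := by ring
  rw [h1, Ue_mul, Ue_mul, h3, mul_pow, mul_pow, mul_pow]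
  unfold F2 Ue
  simp only [Finset.mul_sum]
  rw [← Finset.sum_sub_distrib, ← Finset.sum_sub_distrib]
  simp only [Finset.mul_sum]
  rw [← Finset.sum_sub_distrib]
  refine Finset.sum_congr rfl (fun j _ => ?_)
  simp only [bP, Polynomial.eval_sub, Polynomial.eval_mul, Polynomial.eval_pow,
    Polynomial.eval_add, Polynomial.eval_one, Polynomial.eval_X, Polynomial.eval_C, mul_pow,
    Nat.add_sub_cancel, pow_succ]
  ring

theorem cond_iff_statement : CondIffStatement := by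
  intro d hd u r s hr hr1 hs
  obtain ⟨m, rfl⟩ : ∃ m, d = m + 1 := ⟨d - 1, by omega⟩
  set U := toU (m + 1) u
  set t := r * s with ht
  have ht0 : t ≠ 0 := mul_ne_zero hr hs
  have hst : s - t ≠ 0 := by
    rw [ht]
    have : s - r * s = s * (1 - r) := by ring
    rw [this]
    exact mul_ne_zero hs (sub_ne_zero.2 (Ne.symm hr1))
  have hdn : ((m + 1 : ℕ) : ℂ) ≠ 0 := by exact_mod_cast Nat.succ_ne_zero m
  set a := (2 * s) ^ m with ha
  set b := (s + t) ^ m with hb
  set c := (2 * t) ^ m with hc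
  have ha0 : a ≠ 0 := pow_ne_zero _ (mul_ne_zero two_ne_zero hs)
  have hc0 : c ≠ 0 := pow_ne_zero _ (mul_ne_zero two_ne_zero ht0)
  set D : ℂ := ((m + 1 : ℕ) : ℂ) with hD
  have hcond : ∀ α β : ℂ, Cond (m + 1) u s t α β ↔
      (α * (a * (2 * s)) + β * (b * (s + t)) = Ue (m + 1) U s ∧
      α * (D * a) + β * (D * b) = Ud (m + 1) U s ∧
      α * (b * (s + t)) + β * (c * (2 * t)) = Ue (m + 1) U t ∧
      α * (D * b) + β * (D * c) = Ud (m + 1) U t) := by
    intro α β
    rw [cond_iff_eqs, Nat.add_sub_cancel, pow_succ, pow_succ, pow_succ]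
  have hF1 := F1_eq (m + 1) (by omega) U r s
  have hF2 := F2_eq (m + 1) (by omega) U r s
  rw [Nat.add_sub_cancel, ← ht, ← ha, ← hb, ← hD] at hF1
  rw [Nat.add_sub_cancel, ← ht, ← hb, ← hc, ← hD] at hF2
  have hsm : s ^ m ≠ 0 := pow_ne_zero _ hs
  constructor
  · constructor
    · rintro ⟨α, β, h⟩
      rw [hcond] at h
      obtain ⟨h1, h2, h3, h4⟩ := h
      constructor
      · have : s ^ m * F1 (m + 1) U r s = 0 := by
          rw [hF1, ← h1, ← h2, ← h3, ← h4]; ring
        exact (mul_eq_zero.1 this).resolve_left hsm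
      · have : s ^ m * F2 (m + 1) U r s = 0 := by
          rw [hF2, ← h1, ← h2, ← h3, ← h4]; ring
        exact (mul_eq_zero.1 this).resolve_left hsm
    · rintro ⟨h1, h2⟩
      rw [h1, mul_zero] at hF1
      rw [h2, mul_zero] at hF2
      have hF2' := (mul_eq_zero.1 hF2.symm).resolve_left hr
      set α := (D * Ue (m + 1) U s - (s + t) * Ud (m + 1) U s) / (D * a * (s - t)) with hα
      set β := (D * Ue (m + 1) U t - (s + t) * Ud (m + 1) U t) / (D * c * (t - s)) with hβ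
      have hts : t - s ≠ 0 := by
        intro h; apply hst; linear_combination -h
      have hA : α * (D * a * (s - t)) = D * Ue (m + 1) U s - (s + t) * Ud (m + 1) U s := by
        rw [hα, div_mul_cancel₀]
        exact mul_ne_zero (mul_ne_zero hdn ha0) hst
      have hB : β * (D * c * (t - s)) = D * Ue (m + 1) U t - (s + t) * Ud (m + 1) U t := by
        rw [hβ, div_mul_cancel₀]
        exact mul_ne_zero (mul_ne_zero hdn hc0) hts
      have hA' : α * (D * b * (s - t)) = D * Ue (m + 1) U t - 2 * t * Ud (m + 1) U t := by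
        apply mul_left_cancel₀ ha0
        linear_combination b * hA - hF1
      have hB' : β * (D * b * (t - s)) = D * Ue (m + 1) U s - 2 * s * Ud (m + 1) U s := by
        apply mul_left_cancel₀ hc0
        linear_combination b * hB + hF2'
      refine ⟨α, β, ?_⟩
      rw [hcond]
      have hDst : D * (s - t) ≠ 0 := mul_ne_zero hdn hst
      refine ⟨?_, ?_, ?_, ?_⟩
      · apply mul_left_cancel₀ hDst
        linear_combination (2 * s) * hA - (s + t) * hB'
      · apply mul_left_cancel₀ hst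
        linear_combination hA - hB'
      · apply mul_left_cancel₀ hDst
        linear_combination (s + t) * hA' - (2 * t) * hB
      · apply mul_left_cancel₀ hst
        linear_combination hA' - hB
  · intro α β α' β' h h'
    rw [hcond] at h h'
    obtain ⟨h1, h2, h3, h4⟩ := h
    obtain ⟨h1', h2', h3', h4'⟩ := h'
    constructor
    · apply mul_left_cancel₀ (mul_ne_zero (mul_ne_zero hdn ha0) hst)
      linear_combination D * (h1 - h1') - (s + t) * (h2 - h2')
    · apply mul_left_cancel₀ (mul_ne_zero (mul_ne_zero hdn hc0) hst)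
      linear_combination -D * (h3 - h3') + (s + t) * (h4 - h4')

end Helper14_ED
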