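import Pool.Agent.Helper73_ED.Statements

/-! Module A2a (congruences) of `MP_625b79_ag`. -/

open scoped Polynomial

set_option autoImplicit false

namespace Helper14_ED

open Helper73_ED

theorem pow_expand {A : Type*} [CommRing A] {ε : A} (h : ε ^ 4 = 0) (n : ℕ) :
    6 * (1 + ε) ^ n = 6 + 6 * n * ε + 3 * n * (n - 1) * ε ^ 2 + n * (n - 1) * (n - 2) * ε ^ 3 := by
  induction n with
  | zero => simp
  | succ n ih =>
    push_cast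
    linear_combination (1 + ε) * ih + ((n : A) * (n - 1) * (n - 2)) * h

theorem pow_expand_two {A : Type*} [CommRing A] {ε : A} (h : ε ^ 4 = 0) (n : ℕ) :
    6 * (2 + 2 * ε + ε ^ 2) ^ n =
      2 ^ n * (6 + 6 * n * ε + 3 * n ^ 2 * ε ^ 2 + ((n : A) ^ 3 - n) * ε ^ 3) := by
  induction n with
  | zero => simp
  | succ n ih =>
    push_cast
    linear_combination (2 + 2 * ε + ε ^ 2) * ih +
      2 ^ n * (2 * ((n : A) ^ 3 - n) + 3 * (n : A) ^ 2 + ((n : A) ^ 3 - n) * ε) * h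

theorem aP_comp (d j : ℕ) : (aP d j).comp (Polynomial.X ^ 2) =
    (1 + Polynomial.X ^ 2) ^ (d - 1) * ((d : ℂ[X]) - (j : ℂ[X]) * (1 + Polynomial.X ^ 2)) -
      2 ^ (d - 1) * ((d : ℂ[X]) - 2 * (j : ℂ[X])) * (Polynomial.X ^ 2) ^ j := by
  have h2 : (Polynomial.C (2 : ℂ)) = 2 := Polynomial.C_ofNat 2
  simp [aP, h2]

theorem bP_comp (d j : ℕ) : (bP d j).comp (Polynomial.X ^ 2) =
    (Polynomial.X ^ 2) ^ j * (1 + Polynomial.X ^ 2) ^ (d - 1) *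
      ((d : ℂ[X]) * Polynomial.X ^ 2 - (j : ℂ[X]) * (1 + Polynomial.X ^ 2)) -
      2 ^ (d - 1) * ((d : ℂ[X]) - 2 * (j : ℂ[X])) * (Polynomial.X ^ 2) ^ d := by
  have h2 : (Polynomial.C (2 : ℂ)) = 2 := Polynomial.C_ofNat 2
  simp [bP, h2]

theorem main_identity {A : Type*} [CommRing A] {e a b g c D J : A} (h : e ^ 4 = 0)
    (ha : 6 * a = c * (6 + 6 * (D - 1) * e + 3 * (D - 1) ^ 2 * e ^ 2 +
      ((D - 1) ^ 3 - (D - 1)) * e ^ 3))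
    (hb : 6 * b = 6 + 6 * D * e + 3 * D * (D - 1) * e ^ 2 + D * (D - 1) * (D - 2) * e ^ 3)
    (hg : 6 * g = 6 + 6 * (2 * J) * e + 3 * (2 * J) * (2 * J - 1) * e ^ 2 +
      (2 * J) * (2 * J - 1) * (2 * J - 2) * e ^ 3) :
    216 * (b * (a * (D - J * (2 + 2 * e + e ^ 2)) - c * (D - 2 * J) * g) +
      (g * a * (D * (1 + e) ^ 2 - J * (2 + 2 * e + e ^ 2)) - c * (D - 2 * J) * b ^ 2)) = 0 := by
  have h1 : 216 * (b * (a * (D - J * (2 + 2 * e + e ^ 2)) - c * (D - 2 * J) * g) +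
      (g * a * (D * (1 + e) ^ 2 - J * (2 + 2 * e + e ^ 2)) - c * (D - 2 * J) * b ^ 2)) =
      6 * ((6 * a) * ((6 * b) * (D - J * (2 + 2 * e + e ^ 2)) +
        (6 * g) * (D * (1 + e) ^ 2 - J * (2 + 2 * e + e ^ 2))) -
        c * (D - 2 * J) * ((6 * b) * (6 * g) + (6 * b) ^ 2)) := by ring
  rw [h1, ha, hb, hg]
  linear_combination (6 * c * ((-36)*J + (-36)*J^2*e + (18)*J^2*e^2 + (-12)*J^2*e^3 + (-36)*J^3*e^2 + (36)*J^3*e^3 +
    (-24)*J^4*e^3 + (18)*D + (66)*D*J + (-18)*D*J*e + (-9)*D*J*e^2 + (6)*D*J*e^3 +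
    (24)*D*J^2*e^2 + (-16)*D*J^2*e^3 + (-8)*D*J^2*e^4 + (-24)*D*J^3 + (120)*D*J^3*e +
    (-48)*D*J^3*e^2 + (-24)*D*J^3*e^3 + (24)*D*J^3*e^4 + (-48)*D*J^4*e + (48)*D*J^4*e^2 +
    (16)*D*J^4*e^3 + (-16)*D*J^4*e^4 + (-33)*D^2 + (18)*D^2*e + (-36)*D^2*J + (66)*D^2*J*e +
    (-3)*D^2*J*e^2 + (-1)*D^2*J*e^3 + (4)*D^2*J*e^4 + (36)*D^2*J^2 + (-108)*D^2*J^2*e +
    (42)*D^2*J^2*e^2 + (42)*D^2*J^2*e^3 + (-12)*D^2*J^2*e^4 + (60)*D^2*J^3*e^2 +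
    (-16)*D^2*J^3*e^3 + (-20)*D^2*J^3*e^4 + (-48)*D^2*J^4*e^2 + (24)*D^2*J^4*e^3 +
    (24)*D^2*J^4*e^4 + (18)*D^3 + (-33)*D^3*e + (-6)*D^3*J + (-12)*D^3*J*e + (-9)*D^3*J*e^2 +
    (-12)*D^3*J*e^3 + (48)*D^3*J^2*e + (-108)*D^3*J^2*e^2 + (-2)*D^3*J^2*e^3 +
    (32)*D^3*J^2*e^4 + (24)*D^3*J^3*e^2 + (-12)*D^3*J^3*e^3 + (-12)*D^3*J^3*e^4 +
    (-16)*D^3*J^4*e^3 + (-8)*D^3*J^4*e^4 + (-3)*D^4 + (18)*D^4*e + (-12)*D^4*J*e +
    (33)*D^4*J*e^2 + (3)*D^4*J*e^3 + (-9)*D^4*J*e^4 + (24)*D^4*J^2*e^2 + (-12)*D^4*J^2*e^3 +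
    (-12)*D^4*J^2*e^4 + (16)*D^4*J^3*e^3 + (8)*D^4*J^3*e^4 + (-3)*D^5*e + (-12)*D^5*J*e^2 +
    (6)*D^5*J*e^3 + (6)*D^5*J*e^4 + (-2)*D^6*J*e^3 + (-1)*D^6*J*e^4)) * h

theorem congr_statement : CongrStatement := by
  intro d j hd hj
  constructor
  · rw [← Polynomial.C_1, Polynomial.dvd_iff_isRoot, Polynomial.IsRoot, aP_comp]
    simp
    ring
  · have h216 : ∀ P : ℂ[X], (Polynomial.X - 1 : ℂ[X]) ^ 4 ∣ 216 * P →
        (Polynomial.X - 1 : ℂ[X]) ^ 4 ∣ P := by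
      intro P hP
      have : P = Polynomial.C (1 / 216 : ℂ) * (216 * P) := by
        rw [← mul_assoc]
        have : (Polynomial.C (1 / 216 : ℂ)) * 216 = 1 := by
          have h2 : (216 : ℂ[X]) = Polynomial.C (216 : ℂ) := (Polynomial.C_ofNat 216).symm
          rw [h2, ← Polynomial.C_mul]
          norm_num
        rw [this, one_mul]
      rw [this]
      exact hP.mul_left _
    apply h216
    rw [← Ideal.mem_span_singleton, ← Ideal.Quotient.eq_zero_iff_mem]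
    set φ := Ideal.Quotient.mk (Ideal.span {(Polynomial.X - 1 : ℂ[X]) ^ 4}) with hφ
    set e := φ (Polynomial.X - 1) with he
    have he4 : e ^ 4 = 0 := by
      rw [he, ← map_pow, hφ, Ideal.Quotient.eq_zero_iff_mem, Ideal.mem_span_singleton]
    have hX : φ Polynomial.X = 1 + e := by
      rw [he, map_sub, map_one]; ring
    have hd1 : ((d - 1 : ℕ) : ℂ[X] ⧸ Ideal.span {(Polynomial.X - 1 : ℂ[X]) ^ 4}) =
        (d : ℂ[X] ⧸ Ideal.span {(Polynomial.X - 1 : ℂ[X]) ^ 4}) - 1 := by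
      rw [Nat.cast_sub (by omega)]; simp
    have ha := pow_expand_two he4 (d - 1)
    rw [hd1] at ha
    have hb := pow_expand he4 d
    have hg := pow_expand he4 (2 * j)
    push_cast at hg
    have := main_identity he4 ha hb hg
    rw [aP_comp, bP_comp]
    simp only [map_mul, map_add, map_sub, map_pow, map_one, hX, map_natCast, map_ofNat]
    rw [← this]
    have e1 : (1 + (1 + e) ^ 2) = 2 + 2 * e + e ^ 2 := by ring
    rw [e1, ← pow_mul (1 + e) 2 j, ← pow_mul (1 + e) 2 d, ← pow_mul (1 + e) d 2, mul_comm d 2]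

end Helper14_ED
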