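import Pool.Agent.Helper14_ED.Congr

/-! Module A2 (order of the resultant at `r = 1`) of `MP_625b79_ag`. -/

open scoped Polynomial

set_option autoImplicit false

namespace Helper14_ED

open Helper73_ED

theorem dvd_sum_C {d n : ℕ} {p : ℂ[X]} (c : Fin (d + 1) → ℂ[X]) (h : ∀ j, p ^ n ∣ c j) :
    ∃ q : ℂ[X][X], ∑ j : Fin (d + 1), Polynomial.C (c j) * Polynomial.X ^ (j : ℕ) =
      Polynomial.C (p ^ n) * q := by
  choose q hq using h
  refine ⟨∑ j : Fin (d + 1), Polynomial.C (q j) * Polynomial.X ^ (j : ℕ), ?_⟩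
  rw [Finset.mul_sum]
  refine Finset.sum_congr rfl (fun j _ => ?_)
  conv_lhs => rw [hq j]
  rw [Polynomial.C_mul, mul_assoc]

theorem natDegree_sum_le {d : ℕ} (c : Fin (d + 1) → ℂ[X]) :
    (∑ j : Fin (d + 1), Polynomial.C (c j) * Polynomial.X ^ (j : ℕ)).natDegree ≤ d := by
  refine Polynomial.natDegree_sum_le_of_forall_le _ _ (fun j _ => ?_)
  refine (Polynomial.natDegree_C_mul_X_pow_le _ _).trans ?_
  have := j.2
  omega

theorem ord_one_statement : OrdOneStatement := by
  intro d hd U
  -- the resultant at `r = ρ ^ 2`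
  set φ : ℂ[X] →+* ℂ[X] := Polynomial.compRingHom (Polynomial.X ^ 2) with hφ
  have h1 : φ (RU d U) = Polynomial.resultant ((fU d U).map φ) ((gU d U).map φ) d d := by
    rw [Polynomial.resultant_map_map]; rfl
  have hf : (fU d U).map φ = ∑ j : Fin (d + 1),
      Polynomial.C (Polynomial.C (U j) * (aP d j).comp (Polynomial.X ^ 2)) *
        Polynomial.X ^ (j : ℕ) := by
    rw [fU, Polynomial.map_sum]
    refine Finset.sum_congr rfl (fun j _ => ?_)
    simp [hφ]
  have hg : (gU d U).map φ = ∑ j : Fin (d + 1),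
      Polynomial.C (Polynomial.C (U j) * (bP d j).comp (Polynomial.X ^ 2)) *
        Polynomial.X ^ (j : ℕ) := by
    rw [gU, Polynomial.map_sum]
    refine Finset.sum_congr rfl (fun j _ => ?_)
    simp [hφ]
  have hcong : ∀ j : Fin (d + 1), _ := fun j => congr_statement d j hd (by have := j.2; omega)
  obtain ⟨f₁, hf₁⟩ := dvd_sum_C (p := (Polynomial.X - 1 : ℂ[X])) (n := 1)
    (fun j : Fin (d + 1) => Polynomial.C (U j) * (aP d j).comp (Polynomial.X ^ 2))
    (fun j => by rw [pow_one]; exact (hcong j).1.mul_left _)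
  obtain ⟨g₁, hg₁⟩ := dvd_sum_C (p := (Polynomial.X - 1 : ℂ[X])) (n := 4)
    (fun j : Fin (d + 1) => Polynomial.C (U j) * (Polynomial.X ^ d *
      (aP d j).comp (Polynomial.X ^ 2) + (bP d j).comp (Polynomial.X ^ 2)))
    (fun j => (hcong j).2.mul_left _)
  have hsum : (gU d U).map φ + (fU d U).map φ * Polynomial.C (Polynomial.X ^ d) =
      Polynomial.C ((Polynomial.X - 1 : ℂ[X]) ^ 4) * g₁ := by
    rw [← hg₁, hf, hg, Finset.sum_mul, ← Finset.sum_add_distrib]
    refine Finset.sum_congr rfl (fun j _ => ?_)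
    simp only [Polynomial.C_mul, Polynomial.C_add]
    ring
  have h2 : φ (RU d U) = (Polynomial.X - 1 : ℂ[X]) ^ (5 * d) *
      Polynomial.resultant f₁ g₁ d d := by
    rw [h1, ← Polynomial.resultant_add_mul_right _ _ (Polynomial.C (Polynomial.X ^ d)) d d
      (by simp) (by rw [hf]; exact natDegree_sum_le _), hsum, hf, hf₁,
      Polynomial.resultant_C_mul_right, Polynomial.resultant_C_mul_left, pow_one, ← pow_mul,
      ← mul_assoc, ← pow_add]
    congr 2
    ring
  -- back to `r`
  by_cases hR : RU d U = 0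
  · rw [hR]; exact dvd_zero _
  · obtain ⟨S, hS, hS1⟩ := Polynomial.exists_eq_pow_rootMultiplicity_mul_and_not_dvd (RU d U) hR 1
    set k := Polynomial.rootMultiplicity 1 (RU d U) with hk
    have hS1' : S.eval 1 ≠ 0 := by
      intro h
      exact hS1 (Polynomial.dvd_iff_isRoot.2 h)
    rw [← Polynomial.C_1] at h2 ⊢
    rw [hS]
    by_contra hcon
    have hlt : k < 5 * d := by
      by_contra h
      push_neg at h
      exact hcon ((pow_dvd_pow _ h).mul_right _)
    have h3 : φ (RU d U) = (Polynomial.X - Polynomial.C 1 : ℂ[X]) ^ k *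
        ((Polynomial.X + Polynomial.C 1) ^ k * S.comp (Polynomial.X ^ 2)) := by
      rw [hS, hφ]
      simp only [Polynomial.coe_compRingHom_apply, Polynomial.mul_comp, Polynomial.pow_comp,
        Polynomial.sub_comp, Polynomial.X_comp, Polynomial.C_comp]
      rw [← mul_assoc, ← mul_pow]
      congr 2
      rw [Polynomial.C_1]
      ring
    rw [h2] at h3
    have h4 : 5 * d = k + (5 * d - k - 1) + 1 := by omega
    rw [h4, pow_add, pow_add, mul_assoc, mul_assoc] at h3
    have h5 := mul_left_cancel₀ (pow_ne_zero k (Polynomial.X_sub_C_ne_zero (1 : ℂ))) h3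
    have h6 := congrArg (Polynomial.eval 1) h5
    simp at h6
    exact hS1' h6

end Helper14_ED
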